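import Pool.Agent.helper60.MW.Spec

set_option autoImplicit false

/-!
# Row mw:SEQ (project MW, MP_f477b1_co): elementary facts on the sequences
-/

namespace Pool.Agent.MW

theorem SEQ_kk (P : ℕ) (hP : 1 ≤ P) (i : ℕ) : 1 ≤ kk P i := by
  unfold kk
  split_ifs
  · exact le_rfl
  · exact Nat.one_le_iff_ne_zero.2 (by positivity)

theorem SEQ_aa_succ (a : ℝ) (P : ℕ) (hP : 1 ≤ P) (i : ℕ) :
    aa P a i = (2 * (kk P (i + 1) : ℝ)) * aa P a (i + 1) := by
  have hk : ∀ l, (0 : ℝ) < 2 * (kk P (l + 1) : ℝ) := by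
    intro l
    have := SEQ_kk P hP (l + 1)
    have h2 : (0 : ℝ) < (kk P (l + 1) : ℝ) := by exact_mod_cast this
    linarith
  have hp : (0 : ℝ) < ∏ l ∈ Finset.range i, (2 * (kk P (l + 1) : ℝ)) :=
    Finset.prod_pos (fun l _ => hk l)
  unfold aa
  rw [Finset.prod_range_succ]
  have h1 := (hk i).ne'
  have h2 := hp.ne'
  rw [mul_div_assoc', eq_div_iff (mul_ne_zero h2 h1), div_mul_eq_mul_div, div_eq_iff h2]
  ring

theorem SEQ_aa_pos (a : ℝ) (ha : 0 < a) (P : ℕ) (hP : 1 ≤ P) (i : ℕ) : 0 < aa P a i := by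
  unfold aa
  apply div_pos ha
  apply Finset.prod_pos
  intro l _
  have := SEQ_kk P hP (l + 1)
  have h2 : (0 : ℝ) < (kk P (l + 1) : ℝ) := by exact_mod_cast this
  linarith

theorem SEQ_half (t : ℕ → ℝ) (h : ∀ i, t i = 2 * t (i + 1)) (h0 : ∀ i, 0 ≤ t i) (n : ℕ) :
    ∑ i ∈ Finset.range n, t i ≤ 2 * t 0 := by
  have key : ∀ n, ∑ i ∈ Finset.range n, t i + 2 * t n = 2 * t 0 := by
    intro n
    induction n with
    | zero => simp
    | succ n ih =>
      rw [Finset.sum_range_succ]
      have := h n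
      linarith
  have := key n
  have := h0 n
  linarith

theorem SEQ : SEQ_stmt := by
  intro κ a P m hκ hκ2 ha hP
  have hkk := SEQ_kk P hP
  have haa := SEQ_aa_pos a ha P hP
  have hsucc := SEQ_aa_succ a P hP
  have hkr : ∀ i, (1 : ℝ) ≤ (kk P i : ℝ) := fun i => by exact_mod_cast hkk i
  have hhalf : ∀ i, aa P a (i + 1) ≤ aa P a i / 2 := by
    intro i
    have h1 := hsucc i
    have h2 := hkr (i + 1)
    have h3 := haa (i + 1)
    nlinarith
  have h0 : aa P a 0 = a := by simp [aa]
  have hss : ∀ i, ss κ (i + 1) = ss κ i + 4 * hh κ i := by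
    intro i
    unfold ss hh
    have : (2 : ℝ) ^ i ≠ 0 := by positivity
    field_simp
    ring
  have hsle : ∀ i, ss κ i ≤ 1 - κ / 2 := by
    intro i
    unfold ss
    have : 0 < κ / 2 ^ (i + 1) := by positivity
    linarith
  refine ⟨⟨h0, by simp [mm]⟩, ?_, ?_, hkk, haa, ?_, ?_, ?_, hss, ?_, ?_, ?_, ?_⟩
  · intro i
    rw [hsucc i]
    push_cast
    ring
  · intro i
    unfold mm
    rw [Finset.prod_range_succ, mul_assoc]
  · intro i
    induction i with
    | zero => simp [h0]
    | succ i ih =>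
      have h1 := hhalf i
      calc aa P a (i + 1) ≤ aa P a i / 2 := h1
        _ ≤ (a / 2 ^ i) / 2 := by linarith
        _ = a / 2 ^ (i + 1) := by rw [pow_succ]; field_simp
  · intro n
    have := SEQ_half (fun i => (mm P m i : ℝ) * kk P i * aa P a i) (by
      intro i
      have h1 : (mm P m (i + 1) : ℝ) = mm P m i * kk P i := by
        unfold mm
        rw [Finset.prod_range_succ, ← mul_assoc]
        push_cast
        ring
      show (mm P m i : ℝ) * kk P i * aa P a i = 2 * ((mm P m (i + 1) : ℝ) * kk P (i + 1) * aa P a (i + 1))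
      rw [hsucc i, h1]
      ring) (by
      intro i
      have := haa i
      positivity) n
    refine this.trans ?_
    show 2 * ((mm P m 0 : ℝ) * kk P 0 * aa P a 0) ≤ 2 * m * a
    rw [h0]
    simp [mm, kk]
    rw [mul_assoc]
  · intro n
    have hb : ∀ n, ∑ i ∈ Finset.range n, aa P a i + 2 * aa P a n ≤ 2 * a := by
      intro n
      induction n with
      | zero => simp [h0]
      | succ n ih =>
        rw [Finset.sum_range_succ]
        have := hhalf n
        linarith
    have := hb n
    have := haa n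
    linarith
  · intro i
    rw [← hss i]
    have := hsle (i + 1)
    linarith
  · intro i
    refine ⟨?_, hsle i⟩
    unfold ss
    have h1 : κ / 2 ^ (i + 1) ≤ κ / 2 := by
      apply div_le_div_of_nonneg_left hκ.le (by norm_num)
      calc (2 : ℝ) = 2 ^ 1 := by norm_num
        _ ≤ 2 ^ (i + 1) := pow_le_pow_right₀ (by norm_num) (by omega)
    linarith
  · intro i
    unfold hh
    positivity
  · unfold ss
    norm_num
    ring

end Pool.Agent.MW
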